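import Pool.Agent.Helper35.SHQ.Sheet

/-! NUM: the kernel computation (362 steps, sums over words of length < 18). -/

set_option maxRecDepth 1000000

namespace SHQ

set_option maxHeartbeats 0 in
theorem st_NUM : ST_NUM := ⟨362, 18, by decide +kernel⟩

end SHQ
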